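import Pool.Agent.Q225.GH.Stm

set_option autoImplicit false

/-!
# Job GH-SELF: the certificate of the base graph
-/

namespace Pool.Agent.Q184.GH

open Finset Pool.Agent.TH658.Dg Pool.Agent.Q210.SP Pool.Agent.Q225.GH

variable {m p : ℕ}

/-- sums over the nodes -/
lemma nd_sum [NeZero m] (f : Nd m p → ZMod 2) : ∑ u, f u = ∑ v, f (Nd.q v) +
    (∑ e, (f (Nd.d e true) + f (Nd.d e false)) + (∑ v, ∑ x, f (Nd.r v x) +
      (∑ v, ∑ y, f (Nd.c v y) + ∑ i, f (Nd.z i)))) := by
  rw [Fintype.sum_equiv (ndEquiv m p) f (fun s => f ((ndEquiv m p).symm s)) (fun u => by simp)]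
  rw [Fintype.sum_sum_type, Fintype.sum_sum_type, Fintype.sum_sum_type, Fintype.sum_sum_type]
  refine congrArg₂ (· + ·) rfl (congrArg₂ (· + ·) ?_ (congrArg₂ (· + ·) ?_ (congrArg₂ (· + ·) ?_ rfl)))
  · rw [Fintype.sum_prod_type]
    refine Finset.sum_congr rfl fun e _ => ?_
    rw [Fintype.sum_bool]
    rfl
  · rw [Fintype.sum_prod_type]
    rfl
  · rw [Fintype.sum_prod_type]
    rfl

/-- the indicator of the adjacency in one direction -/
def tr : Nd m p → Nd m p → ZMod 2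
  | Nd.q v, Nd.d e true => if mtgt m e = v then 1 else 0
  | Nd.q v, Nd.d e false => if msrc m e = v then 1 else 0
  | Nd.q v, Nd.r w x => if v = w ∧ x = 0 then 1 else 0
  | Nd.d e false, Nd.d e' true => if e = e' then 1 else 0
  | Nd.r v _, Nd.c w _ => if v = w then 1 else 0
  | _, _ => 0

lemma tr_rel (u w : Nd m p) (h : tr u w ≠ 0) : ndRel u w := by
  rcases u with v | ⟨e, b⟩ | ⟨v, x⟩ | ⟨v, y⟩ | i <;> rcases w with v' | ⟨e', b'⟩ | ⟨v', x'⟩ | ⟨v', y'⟩ | i' <;>
    (try rcases b with _ | _) <;> (try rcases b' with _ | _) <;> simp_all [tr, ndRel]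

lemma port_one [NeZero m] (v : MQ m) (j : Pt) :
    ∑ e : ME m, ((if mtgt m e = v then (1 : ZMod 2) else 0) * (if j = Sum.inl e.1 then 1 else 0) +
      (if msrc m e = v then (1 : ZMod 2) else 0) * (if j = Sum.inr e.1 then 1 else 0)) = 1 := by
  rcases j with k | k
  · rw [Finset.sum_eq_single (k, (Pool.Agent.H521R3.BI.sg m k).symm v)]
    · have h : mtgt m (k, (Pool.Agent.H521R3.BI.sg m k).symm v) = v := Equiv.apply_symm_apply _ _
      simp [h]
    · rintro ⟨k', w⟩ _ hne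
      by_cases hk : k = k'
      · subst hk
        have : ¬ mtgt m (k, w) = v := by
          intro h
          apply hne
          have : w = (Pool.Agent.H521R3.BI.sg m k).symm v := (Equiv.eq_symm_apply _).2 h
          rw [this]
        simp [this]
      · simp [hk]
    · intro h
      exact absurd (mem_univ _) h
  · rw [Finset.sum_eq_single (k, v)]
    · have h : msrc m (k, v) = v := rfl
      simp [h]
    · rintro ⟨k', w⟩ _ hne
      by_cases hk : k = k'
      · subst hk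
        have : ¬ msrc m (k, w) = v := by
          intro h
          apply hne
          have : w = v := h
          rw [this]
        simp [this]
      · simp [hk]
    · intro h
      exact absurd (mem_univ _) h

lemma two0 : (1 : ZMod 2) + 1 = 0 := by decide

lemma van_q [NeZero m] (v : MQ m) (j : Pt) :
    ∑ w : Nd m p, (tr (Nd.q v) w + tr w (Nd.q v)) * (MB m p).lam (Nd.q v) w j = 0 := by
  rw [nd_sum]
  have h1 : ∑ v', (tr (Nd.q v) (Nd.q v' : Nd m p) + tr (Nd.q v' : Nd m p) (Nd.q v)) *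
      (MB m p).lam (Nd.q v) (Nd.q v') j = 0 := by
    refine Finset.sum_eq_zero fun v' _ => ?_
    show ((0 : ZMod 2) + 0) * _ = 0
    ring
  have h2 : ∑ e, ((tr (Nd.q v) (Nd.d e true : Nd m p) + tr (Nd.d e true : Nd m p) (Nd.q v)) *
      (MB m p).lam (Nd.q v) (Nd.d e true) j + (tr (Nd.q v) (Nd.d e false : Nd m p) +
      tr (Nd.d e false : Nd m p) (Nd.q v)) * (MB m p).lam (Nd.q v) (Nd.d e false) j) = 1 := by
    rw [← port_one v j]
    refine Finset.sum_congr rfl fun e _ => ?_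
    show ((if mtgt m e = v then (1 : ZMod 2) else 0) + 0) * (if j = Sum.inl e.1 then 1 else 0) +
      ((if msrc m e = v then (1 : ZMod 2) else 0) + 0) * (if j = Sum.inr e.1 then 1 else 0) = _
    rw [add_zero, add_zero]
  have h3 : ∑ v', ∑ x, (tr (Nd.q v) (Nd.r v' x : Nd m p) + tr (Nd.r v' x : Nd m p) (Nd.q v)) *
      (MB m p).lam (Nd.q v) (Nd.r v' x) j = 1 := by
    rw [Finset.sum_eq_single v]
    · rw [Finset.sum_eq_single 0]
      · show ((if v = v ∧ (0 : Fin 3) = 0 then (1 : ZMod 2) else 0) + 0) * 1 = 1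
        rw [if_pos ⟨rfl, rfl⟩]
        rfl
      · intro x _ hx
        show ((if v = v ∧ x = 0 then (1 : ZMod 2) else 0) + 0) * 1 = 0
        rw [if_neg fun h => hx h.2]
        rfl
      · intro h
        exact absurd (mem_univ _) h
    · intro v' _ hv
      refine Finset.sum_eq_zero fun x _ => ?_
      show ((if v = v' ∧ x = 0 then (1 : ZMod 2) else 0) + 0) * 1 = 0
      rw [if_neg fun h => hv h.1.symm]
      rfl
    · intro h
      exact absurd (mem_univ _) h
  have h4 : ∑ v', ∑ y, (tr (Nd.q v) (Nd.c v' y : Nd m p) + tr (Nd.c v' y : Nd m p) (Nd.q v)) *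
      (MB m p).lam (Nd.q v) (Nd.c v' y) j = 0 := by
    refine Finset.sum_eq_zero fun v' _ => Finset.sum_eq_zero fun y _ => ?_
    show ((0 : ZMod 2) + 0) * _ = 0
    ring
  have h5 : ∑ i, (tr (Nd.q v) (Nd.z i : Nd m p) + tr (Nd.z i : Nd m p) (Nd.q v)) *
      (MB m p).lam (Nd.q v) (Nd.z i) j = 0 := by
    refine Finset.sum_eq_zero fun i _ => ?_
    show ((0 : ZMod 2) + 0) * _ = 0
    ring
  rw [h1, h2, h3, h4, h5]
  decide

lemma van_d [NeZero m] (e₀ : ME m) (b₀ : Bool) (j : Unit) :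
    ∑ w : Nd m p, (tr (Nd.d e₀ b₀) w + tr w (Nd.d e₀ b₀)) * (MB m p).lam (Nd.d e₀ b₀) w j = 0 := by
  rw [nd_sum]
  have h1 : ∑ v', (tr (Nd.d e₀ b₀) (Nd.q v' : Nd m p) + tr (Nd.q v' : Nd m p) (Nd.d e₀ b₀)) *
      (MB m p).lam (Nd.d e₀ b₀) (Nd.q v') j = 1 := by
    cases b₀ with
    | true =>
      rw [Finset.sum_eq_single (mtgt m e₀)]
      · show ((0 : ZMod 2) + if mtgt m e₀ = mtgt m e₀ then 1 else 0) * 1 = 1
        rw [if_pos rfl]
        rfl
      · intro v' _ hv
        show ((0 : ZMod 2) + if mtgt m e₀ = v' then 1 else 0) * 1 = 0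
        rw [if_neg fun h => hv h.symm]
        rfl
      · intro h
        exact absurd (mem_univ _) h
    | false =>
      rw [Finset.sum_eq_single (msrc m e₀)]
      · show ((0 : ZMod 2) + if msrc m e₀ = msrc m e₀ then 1 else 0) * 1 = 1
        rw [if_pos rfl]
        rfl
      · intro v' _ hv
        show ((0 : ZMod 2) + if msrc m e₀ = v' then 1 else 0) * 1 = 0
        rw [if_neg fun h => hv h.symm]
        rfl
      · intro h
        exact absurd (mem_univ _) h
  have h2 : ∑ e, ((tr (Nd.d e₀ b₀) (Nd.d e true : Nd m p) + tr (Nd.d e true : Nd m p) (Nd.d e₀ b₀)) *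
      (MB m p).lam (Nd.d e₀ b₀) (Nd.d e true) j + (tr (Nd.d e₀ b₀) (Nd.d e false : Nd m p) +
      tr (Nd.d e false : Nd m p) (Nd.d e₀ b₀)) * (MB m p).lam (Nd.d e₀ b₀) (Nd.d e false) j) = 1 := by
    rw [Finset.sum_eq_single e₀]
    · cases b₀ with
      | true =>
        show ((0 : ZMod 2) + 0) * 1 + (0 + if e₀ = e₀ then 1 else 0) * 1 = 1
        rw [if_pos rfl]
        rfl
      | false =>
        show ((if e₀ = e₀ then (1 : ZMod 2) else 0) + 0) * 1 + (0 + 0) * 1 = 1
        rw [if_pos rfl]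
        rfl
    · intro e _ he
      cases b₀ with
      | true =>
        show ((0 : ZMod 2) + 0) * 1 + (0 + if e = e₀ then 1 else 0) * 1 = 0
        rw [if_neg he]
        rfl
      | false =>
        show ((if e₀ = e then (1 : ZMod 2) else 0) + 0) * 1 + (0 + 0) * 1 = 0
        rw [if_neg (Ne.symm he)]
        rfl
    · intro h
      exact absurd (mem_univ _) h
  have h3 : ∑ v', ∑ x, (tr (Nd.d e₀ b₀) (Nd.r v' x : Nd m p) + tr (Nd.r v' x : Nd m p) (Nd.d e₀ b₀)) *
      (MB m p).lam (Nd.d e₀ b₀) (Nd.r v' x) j = 0 := by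
    refine Finset.sum_eq_zero fun v' _ => Finset.sum_eq_zero fun y _ => ?_
    cases b₀ <;> exact zero_mul _
  have h4 : ∑ v', ∑ y, (tr (Nd.d e₀ b₀) (Nd.c v' y : Nd m p) + tr (Nd.c v' y : Nd m p) (Nd.d e₀ b₀)) *
      (MB m p).lam (Nd.d e₀ b₀) (Nd.c v' y) j = 0 := by
    refine Finset.sum_eq_zero fun v' _ => Finset.sum_eq_zero fun y _ => ?_
    cases b₀ <;> exact zero_mul _
  have h5 : ∑ i, (tr (Nd.d e₀ b₀) (Nd.z i : Nd m p) + tr (Nd.z i : Nd m p) (Nd.d e₀ b₀)) *
      (MB m p).lam (Nd.d e₀ b₀) (Nd.z i) j = 0 := by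
    refine Finset.sum_eq_zero fun i _ => ?_
    cases b₀ <;> exact zero_mul _
  rw [h1, h2, h3, h4, h5]
  decide

lemma vec3_sum (i : Fin 3) : ∑ y, vec3 y i = 0 := by
  revert i
  decide

lemma van_r [NeZero m] (v : MQ m) (x : Fin 3) (j : Fin 3) :
    ∑ w : Nd m p, (tr (Nd.r v x) w + tr w (Nd.r v x)) * (MB m p).lam (Nd.r v x) w j = 0 := by
  rw [nd_sum]
  have h1 : ∑ v', (tr (Nd.r v x) (Nd.q v' : Nd m p) + tr (Nd.q v' : Nd m p) (Nd.r v x)) *
      (MB m p).lam (Nd.r v x) (Nd.q v') j = if x = 0 then 1 else 0 := by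
    rw [Finset.sum_eq_single v]
    · show ((0 : ZMod 2) + if v = v ∧ x = 0 then 1 else 0) * 1 = _
      rw [mul_one, zero_add]
      by_cases hx : x = 0
      · rw [if_pos ⟨rfl, hx⟩, if_pos hx]
      · rw [if_neg fun h => hx h.2, if_neg hx]
    · intro v' _ hv
      show ((0 : ZMod 2) + if v' = v ∧ x = 0 then 1 else 0) * 1 = 0
      rw [if_neg fun h => hv h.1]
      rfl
    · intro h
      exact absurd (mem_univ _) h
  have h2 : ∑ e, ((tr (Nd.r v x) (Nd.d e true : Nd m p) + tr (Nd.d e true : Nd m p) (Nd.r v x)) *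
      (MB m p).lam (Nd.r v x) (Nd.d e true) j + (tr (Nd.r v x) (Nd.d e false : Nd m p) +
      tr (Nd.d e false : Nd m p) (Nd.r v x)) * (MB m p).lam (Nd.r v x) (Nd.d e false) j) = 0 := by
    refine Finset.sum_eq_zero fun e _ => ?_
    show ((0 : ZMod 2) + 0) * 1 + (0 + 0) * 1 = 0
    rfl
  have h3 : ∑ v', ∑ x', (tr (Nd.r v x) (Nd.r v' x' : Nd m p) + tr (Nd.r v' x' : Nd m p) (Nd.r v x)) *
      (MB m p).lam (Nd.r v x) (Nd.r v' x') j = 0 := by
    refine Finset.sum_eq_zero fun v' _ => Finset.sum_eq_zero fun y _ => ?_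
    show ((0 : ZMod 2) + 0) * _ = 0
    ring
  have h4 : ∑ v', ∑ y, (tr (Nd.r v x) (Nd.c v' y : Nd m p) + tr (Nd.c v' y : Nd m p) (Nd.r v x)) *
      (MB m p).lam (Nd.r v x) (Nd.c v' y) j = if x = 0 then 1 else 0 := by
    rw [Finset.sum_eq_single v]
    · have h6 : ∀ y, (tr (Nd.r v x) (Nd.c v y : Nd m p) + tr (Nd.c v y : Nd m p) (Nd.r v x)) *
          (MB m p).lam (Nd.r v x) (Nd.c v y) j =
            if x = 0 then (if j = y then 1 else 0) else vec3 y j := by
        intro y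
        show ((if v = v then (1 : ZMod 2) else 0) + 0) *
          (if x = 0 then (if j = y then 1 else 0) else vec3 y j) = _
        rw [if_pos rfl, add_zero, one_mul]
      rw [Finset.sum_congr rfl fun y _ => h6 y]
      by_cases hx : x = 0
      · simp only [if_pos hx]
        rw [Finset.sum_ite_eq]
        simp
      · simp only [if_neg hx]
        exact vec3_sum j
    · intro v' _ hv
      refine Finset.sum_eq_zero fun y _ => ?_
      show ((if v = v' then (1 : ZMod 2) else 0) + 0) * _ = 0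
      rw [if_neg (Ne.symm hv), add_zero, zero_mul]
    · intro h
      exact absurd (mem_univ _) h
  have h5 : ∑ i, (tr (Nd.r v x) (Nd.z i : Nd m p) + tr (Nd.z i : Nd m p) (Nd.r v x)) *
      (MB m p).lam (Nd.r v x) (Nd.z i) j = 0 := by
    refine Finset.sum_eq_zero fun i _ => ?_
    show ((0 : ZMod 2) + 0) * _ = 0
    ring
  rw [h1, h2, h3, h4, h5]
  by_cases hx : x = 0
  · simp only [if_pos hx]
    decide
  · simp only [if_neg hx]
    decide

lemma van_c [NeZero m] (v : MQ m) (y : Fin 3) (j : Fin 3) :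
    ∑ w : Nd m p, (tr (Nd.c v y) w + tr w (Nd.c v y)) * (MB m p).lam (Nd.c v y) w j = 0 := by
  rw [nd_sum]
  have h1 : ∑ v', (tr (Nd.c v y) (Nd.q v' : Nd m p) + tr (Nd.q v' : Nd m p) (Nd.c v y)) *
      (MB m p).lam (Nd.c v y) (Nd.q v') j = 0 := by
    refine Finset.sum_eq_zero fun v' _ => ?_
    show ((0 : ZMod 2) + 0) * _ = 0
    ring
  have h2 : ∑ e, ((tr (Nd.c v y) (Nd.d e true : Nd m p) + tr (Nd.d e true : Nd m p) (Nd.c v y)) *
      (MB m p).lam (Nd.c v y) (Nd.d e true) j + (tr (Nd.c v y) (Nd.d e false : Nd m p) +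
      tr (Nd.d e false : Nd m p) (Nd.c v y)) * (MB m p).lam (Nd.c v y) (Nd.d e false) j) = 0 := by
    refine Finset.sum_eq_zero fun e _ => ?_
    show ((0 : ZMod 2) + 0) * 1 + (0 + 0) * 1 = 0
    rfl
  have h3 : ∑ v', ∑ x', (tr (Nd.c v y) (Nd.r v' x' : Nd m p) + tr (Nd.r v' x' : Nd m p) (Nd.c v y)) *
      (MB m p).lam (Nd.c v y) (Nd.r v' x') j = 0 := by
    rw [Finset.sum_eq_single v]
    · have h6 : ∀ x', (tr (Nd.c v y) (Nd.r v x' : Nd m p) + tr (Nd.r v x' : Nd m p) (Nd.c v y)) *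
          (MB m p).lam (Nd.c v y) (Nd.r v x') j = vec3 x' j := by
        intro x'
        show ((0 : ZMod 2) + if v = v then (1 : ZMod 2) else 0) * vec3 x' j = _
        rw [if_pos rfl, zero_add, one_mul]
      rw [Finset.sum_congr rfl fun y _ => h6 y]
      exact vec3_sum j
    · intro v' _ hv
      refine Finset.sum_eq_zero fun y _ => ?_
      show ((0 : ZMod 2) + if v' = v then (1 : ZMod 2) else 0) * _ = 0
      rw [if_neg hv, add_zero, zero_mul]
    · intro h
      exact absurd (mem_univ _) h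
  have h4 : ∑ v', ∑ y', (tr (Nd.c v y) (Nd.c v' y' : Nd m p) + tr (Nd.c v' y' : Nd m p) (Nd.c v y)) *
      (MB m p).lam (Nd.c v y) (Nd.c v' y') j = 0 := by
    refine Finset.sum_eq_zero fun v' _ => Finset.sum_eq_zero fun y _ => ?_
    show ((0 : ZMod 2) + 0) * _ = 0
    ring
  have h5 : ∑ i, (tr (Nd.c v y) (Nd.z i : Nd m p) + tr (Nd.z i : Nd m p) (Nd.c v y)) *
      (MB m p).lam (Nd.c v y) (Nd.z i) j = 0 := by
    refine Finset.sum_eq_zero fun i _ => ?_
    show ((0 : ZMod 2) + 0) * _ = 0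
    ring
  rw [h1, h2, h3, h4, h5]
  decide

lemma odd_aux [NeZero m] (b : MQ m → ZMod 2) (u : Nd m p) :
    ∑ w : Nd m p, (tr u w + tr w u) * tw b u w = match u with
      | Nd.q v => b v
      | _ => 0 := by
  rcases u with v | ⟨e, b'⟩ | ⟨v, x⟩ | ⟨v, y⟩ | z
  · show ∑ w : Nd m p, (tr (Nd.q v) w + tr w (Nd.q v)) * tw b (Nd.q v) w = b v
    rw [Finset.sum_eq_single (Nd.r v 0)]
    · show ((if v = v ∧ (0 : Fin 3) = 0 then (1 : ZMod 2) else 0) + 0) *
        (if v = v ∧ (0 : Fin 3) = 0 then b v else 0) = b v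
      rw [if_pos ⟨rfl, rfl⟩, if_pos ⟨rfl, rfl⟩, add_zero, one_mul]
    · rintro (v' | ⟨e, b'⟩ | ⟨v', x⟩ | ⟨v', y⟩ | z) _ hne
      · exact mul_zero _
      · exact mul_zero _
      · show _ * (if v = v' ∧ x = 0 then b v else 0) = 0
        rw [if_neg, mul_zero]
        rintro ⟨rfl, rfl⟩
        exact hne rfl
      · exact mul_zero _
      · exact mul_zero _
    · intro h
      exact absurd (mem_univ _) h
  all_goals
    refine Finset.sum_eq_zero fun w _ => ?_
    exact mul_zero _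

theorem t_SELF : S_SELF := by
  intro m p _ b hb
  refine ⟨id, fun u w => tr u w + tr w u, ⟨fun a b h => h, fun a b => add_comm _ _, ?_, ?_, ?_⟩⟩
  · intro a b h
    by_cases h1 : tr a b = 0
    · by_cases h2 : tr b a = 0
      · exact absurd (show tr a b + tr b a = 0 by rw [h1, h2, add_zero]) h
      · exact Or.inr (tr_rel _ _ h2)
    · exact Or.inl (tr_rel _ _ h1)
  · rintro (v | ⟨e, b0⟩ | ⟨v, x⟩ | ⟨v, y⟩ | z) i
    · exact van_q v i
    · exact van_d e b0 i
    · exact van_r v x i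
    · exact van_c v y i
    · exact i.elim
  · show ∑ u : Nd m p, ∑ w : Nd m p, (tr u w + tr w u) * tw b u w = 1
    rw [Finset.sum_congr rfl fun u _ => odd_aux b u, nd_sum, ← hb]
    simp

end Pool.Agent.Q184.GH
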